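import Mathlib

set_option autoImplicit false
open Finset SimpleGraph Function

namespace Pool.Agent.Results.MP_efdca5_co.Decay

/-- Any two distinct vertices are joined by `k` pairwise edge-disjoint paths. -/
def EdgeConn {V : Type} (G : SimpleGraph V) (k : ℕ) : Prop :=
  ∀ u v, u ≠ v → ∃ p : Fin k → G.Walk u v,
    (∀ i, (p i).IsPath) ∧ ∀ i j, i ≠ j → (p i).edges.Disjoint (p j).edges

/-- `y_G(A) = 2 c(G - A) - |A| - 1`. -/
noncomputable def y {V : Type} (G : SimpleGraph V) (A : Finset (Sym2 V)) : ℤ :=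
  2 * (Nat.card (G.deleteEdges A).ConnectedComponent : ℤ) - #A - 1

variable {V : Type} [Fintype V] [DecidableEq V]

theorem ch (r : ℕ) : 2 * r ≤ r.choose 2 + 3 ∧ (4 ≤ r → 2 * r ≤ r.choose 2 + 2) := by
  have h := Nat.choose_two_right r
  rcases Nat.lt_or_ge r 4 with h4 | h4
  · interval_cases r <;> simp [Nat.choose]
  · obtain ⟨s, rfl⟩ := Nat.exists_eq_add_of_le h4
    have : 2 * (2 * (4 + s) - 2) ≤ (4 + s) * (4 + s - 1) := by
      have e : 4 + s - 1 = 3 + s := by omega
      have e2 : 2 * (4 + s) - 2 = 6 + 2 * s := by omega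
      rw [e, e2]; nlinarith [Nat.zero_le (s * s)]
    omega

theorem pairs {P : Type} [DecidableEq P] (f : V → P) (M : Finset P) (B : Finset (Sym2 V))
    (h : ∀ a ∈ M, ∀ b ∈ M, a ≠ b → ∃ u v, f u = a ∧ f v = b ∧ s(u, v) ∈ B) :
    (#M).choose 2 ≤ #B := by
  rw [← Sym2.card_image_offDiag]
  refine le_trans (card_le_card ?_) (card_image_le (f := Sym2.map f))
  intro e he
  obtain ⟨⟨a, b⟩, hab, rfl⟩ := mem_image.mp he
  obtain ⟨ha, hb, hne⟩ := mem_offDiag.mp hab
  obtain ⟨u, v, rfl, rfl, hm⟩ := h a ha b hb hne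
  exact mem_image.mpr ⟨_, hm, rfl⟩

theorem core (G : SimpleGraph V) (hG : G.Connected) {P C : Type} [Fintype P] [Fintype C]
    [DecidableEq P] [DecidableEq C] (p : V → P) (q : V → C) (hp : Surjective p)
    (hq : Surjective q) (hc : ∀ u v, u ≠ v → q u = q v → G.Adj u v) (A : Finset (Sym2 V))
    (hA : ∀ u v, G.Adj u v → p u ≠ p v → s(u, v) ∈ A) :
    Fintype.card P + #(univ.image fun v => (p v, q v)) ≤ #A + 2 * Fintype.card C + 1 := by
  classical
  set R := univ.image fun v => (p v, q v) with hR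
  let B : C → Finset (Sym2 V) := fun c => A.filter fun e => ∀ v ∈ e, q v = c
  let A1 := univ.biUnion B
  have s1 : A1 ⊆ A := biUnion_subset.mpr fun c _ => filter_subset _ _
  have c1 : #A1 = ∑ c, #(B c) := by
    refine card_biUnion fun c _ d _ hcd => disjoint_left.mpr fun e h1 h2 => hcd ?_
    induction e using Sym2.ind with
    | h u v => exact ((mem_filter.mp h1).2 u (by simp)).symm.trans ((mem_filter.mp h2).2 u (by simp))
  have c2 : #R = ∑ c, #(R.filter fun x => x.2 = c) :=
    card_eq_sum_card_fiberwise fun _ _ => mem_univ _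
  have c3 : 2 * #R ≤ #A1 + 3 * Fintype.card C := by
    rw [c1, c2, mul_sum, ← card_univ, card_eq_sum_ones univ, mul_sum, ← sum_add_distrib]
    refine sum_le_sum fun c _ => ?_
    have := pairs (fun v => (p v, q v)) (R.filter fun x => x.2 = c) (B c) (by
      intro a ha b hb hab
      obtain ⟨ha, ha2⟩ := mem_filter.mp ha
      obtain ⟨hb, hb2⟩ := mem_filter.mp hb
      obtain ⟨u, -, rfl⟩ := mem_image.mp ha
      obtain ⟨v, -, rfl⟩ := mem_image.mp hb
      simp only at ha2 hb2
      have hpq : p u ≠ p v := fun h => hab (by rw [h, ha2, hb2])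
      refine ⟨u, v, rfl, rfl, mem_filter.mpr ⟨hA u v (hc u v (fun h => hpq (by rw [h]))
        (ha2.trans hb2.symm)) hpq, ?_⟩⟩
      intro w hw
      rcases Sym2.mem_iff.mp hw with rfl | rfl <;> assumption)
    have := (ch #(R.filter fun x => x.2 = c)).1
    omega
  let E : Finset (Sym2 (P ⊕ C)) := (R.image fun x => s(Sum.inl x.1, Sum.inr x.2)) ∪
    (A \ A1).image (Sym2.map fun v => Sum.inl (p v))
  let H : SimpleGraph (P ⊕ C) := fromEdgeSet E
  have a1 : ∀ v, H.Adj (Sum.inl (p v)) (Sum.inr (q v)) := fun v => by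
    refine (fromEdgeSet_adj _).mpr ⟨?_, by simp⟩
    exact mem_coe.mpr (mem_union_left _ (mem_image.mpr ⟨(p v, q v), mem_image.mpr ⟨v, mem_univ _, rfl⟩, rfl⟩))
  have a2 : ∀ u v, G.Adj u v → H.Reachable (Sum.inl (p u)) (Sum.inl (p v)) := by
    intro u v h
    by_cases h1 : p u = p v
    · rw [h1]
    by_cases h2 : q u = q v
    · exact (a1 u).reachable.trans (h2 ▸ (a1 v).reachable.symm)
    refine Adj.reachable ((fromEdgeSet_adj _).mpr ⟨?_, by simpa using h1⟩)
    refine mem_coe.mpr (mem_union_right _ (mem_image.mpr ⟨s(u, v), mem_sdiff.mpr ⟨hA u v h h1, ?_⟩, rfl⟩))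
    intro hm
    obtain ⟨c, -, hm⟩ := mem_biUnion.mp hm
    exact h2 (((mem_filter.mp hm).2 u (by simp)).trans ((mem_filter.mp hm).2 v (by simp)).symm)
  have a3 : ∀ u v, H.Reachable (Sum.inl (p u)) (Sum.inl (p v)) := by
    intro u v
    obtain ⟨w⟩ := hG.preconnected u v
    induction w with
    | nil => rfl
    | cons h _ ih => exact (a2 _ _ h).trans ih
  have a4 : ∀ x, ∃ v, H.Reachable x (Sum.inl (p v)) := by
    rintro (x | x)
    · obtain ⟨v, rfl⟩ := hp x; exact ⟨v, .refl _⟩
    · obtain ⟨v, rfl⟩ := hq x; exact ⟨v, (a1 v).reachable.symm⟩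
  obtain ⟨v0⟩ := hG.nonempty
  haveI : Nonempty (P ⊕ C) := ⟨Sum.inl (p v0)⟩
  have hH : H.Connected := ⟨fun a b => by
    obtain ⟨u, hu⟩ := a4 a
    obtain ⟨v, hv⟩ := a4 b
    exact hu.trans ((a3 u v).trans hv.symm)⟩
  have k1 := hH.card_vert_le_card_edgeSet_add_one
  have k2 : Nat.card H.edgeSet ≤ #E := by
    rw [← Set.ncard_coe_finset, Nat.card_coe_set_eq]
    exact Set.ncard_le_ncard (by
      rw [edgeSet_fromEdgeSet]; exact Set.diff_subset) (Finset.finite_toSet E)
  have k3 : #E ≤ #R + #(A \ A1) :=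
    (card_union_le _ _).trans (add_le_add card_image_le card_image_le)
  have k4 := card_sdiff_add_card_eq_card s1
  rw [Nat.card_eq_fintype_card, Fintype.card_sum] at k1
  omega

theorem avoid {G : SimpleGraph V} (h : EdgeConn G 2) (A : Finset (Sym2 V)) (hA : #A ≤ 1)
    (u v : V) : (G.deleteEdges A).Reachable u v := by
  by_cases huv : u = v
  · rw [huv]
  obtain ⟨p, -, hp⟩ := h u v huv
  by_cases h0 : ∀ e ∈ (p 0).edges, e ∉ (A : Set (Sym2 V))
  · exact ⟨(p 0).toDeleteEdges _ h0⟩
  push Not at h0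
  obtain ⟨e, he, heA⟩ := h0
  refine ⟨(p 1).toDeleteEdges _ fun f hf hfA => ?_⟩
  have := card_le_one.mp hA e heA f hfA
  subst this
  exact hp 0 1 (by decide) he hf

theorem result (V : Type) [Fintype V] [DecidableEq V] [Nonempty V] (G : SimpleGraph V) (l : ℕ)
    (hl : l = 1 ∨ l = 2) (h : EdgeConn G l) (h3 : IsEmpty (G ≃g cycleGraph 3))
    (A : Finset (Sym2 V)) (hA : (A : Set (Sym2 V)) ⊆ G.edgeSet) :
    y G A ≤ 2 * (Gᶜ.chromaticNumber.toNat : ℤ) - l + 1 := by
  classical
  have hG : G.Connected := ⟨fun u v => by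
    by_cases huv : u = v
    · rw [huv]
    obtain ⟨p, -, -⟩ := h u v huv
    exact ⟨p ⟨0, by omega⟩⟩⟩
  have hcol := Gᶜ.colorable_chromaticNumber_of_fintype
  set t := Gᶜ.chromaticNumber.toNat with ht
  have ht' : Gᶜ.chromaticNumber = t :=
    (ENat.natCast_toNat (chromaticNumber_ne_top_iff_exists.mpr ⟨_, hcol⟩)).symm
  have hs := (chromaticNumber_eq_iff_forall_surjective hcol).mp ht'
  obtain ⟨q⟩ := hcol
  have hq := hs q
  have hc : ∀ u v, u ≠ v → q u = q v → G.Adj u v := fun u v huv e => by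
    by_contra hn
    exact q.valid ((compl_adj _ _ _).mpr ⟨huv, hn⟩) e
  let P := (G.deleteEdges A).ConnectedComponent
  haveI : Fintype P := Fintype.ofFinite _
  let p : V → P := (G.deleteEdges A).connectedComponentMk
  have hp : Surjective p := Quot.mk_surjective
  have hpA : ∀ u v, G.Adj u v → p u ≠ p v → s(u, v) ∈ A := fun u v a n => by
    by_contra hn
    exact n (ConnectedComponent.connectedComponentMk_eq_of_adj (deleteEdges_adj.mpr ⟨a, hn⟩))
  have hy : y G A = 2 * (Fintype.card P : ℤ) - #A - 1 := by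
    rw [y, ← Nat.card_eq_fintype_card]
  set R := univ.image fun v => (p v, q v) with hR
  have hPR : (univ : Finset P) = R.image Prod.fst := by
    refine (eq_univ_of_forall fun x => ?_).symm
    obtain ⟨v, rfl⟩ := hp x
    exact mem_image.mpr ⟨_, mem_image.mpr ⟨v, mem_univ _, rfl⟩, rfl⟩
  have l1 : Fintype.card P ≤ #R := by rw [← card_univ, hPR]; exact card_image_le
  have m := core G hG p q hp hq hc A hpA
  rw [Fintype.card_fin, ← hR] at m
  rw [hy]
  rcases hl with rfl | rfl
  · push_cast; omega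
  suffices 2 * Fintype.card P ≤ #A + 2 * t by push_cast; omega
  by_cases hx : ∃ u v, G.Adj u v ∧ q u ≠ q v
  · obtain ⟨u, v, a, n⟩ := hx
    by_cases he : s(u, v) ∈ A
    · have hG' : (G.deleteEdges ({s(u, v)} : Finset (Sym2 V))).Connected :=
        ⟨avoid h _ (by simp)⟩
      have m' := core _ hG' p q hp hq (fun a b ab e => deleteEdges_adj.mpr ⟨hc a b ab e, by
        simp only [coe_singleton, Set.mem_singleton_iff, Sym2.eq_iff]
        rintro (⟨rfl, rfl⟩ | ⟨rfl, rfl⟩)
        · exact n e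
        · exact n e.symm⟩) (A.erase s(u, v)) (fun a b ab n => by
          obtain ⟨h1, h2⟩ := deleteEdges_adj.mp ab
          exact mem_erase.mpr ⟨by simpa using h2, hpA a b h1 n⟩)
      rw [Fintype.card_fin, ← hR] at m'
      have := card_erase_add_one he
      omega
    · have e : p u = p v := by
        by_contra hn
        exact he (hpA u v a hn)
      have : Fintype.card P ≠ #R := by
        rw [← card_univ, hPR, Ne, card_image_iff]
        intro hi
        have := hi (mem_coe.mpr (mem_image.mpr ⟨u, mem_univ _, rfl⟩))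
          (mem_coe.mpr (mem_image.mpr ⟨v, mem_univ _, rfl⟩)) e
        exact n (congrArg Prod.snd this)
      omega
  push Not at hx
  have hall : ∀ u v, q u = q v := fun u v => by
    obtain ⟨w⟩ := hG.preconnected u v
    induction w with
    | nil => rfl
    | cons h _ ih => exact (hx _ _ h).trans ih
  have hin : ∀ u v, p u ≠ p v → s(u, v) ∈ A := fun u v n =>
    hpA u v (hc u v (fun e => n (by rw [e])) (hall u v)) n
  have t1 : 1 ≤ t := Fin.pos (q (Classical.arbitrary V))
  have b := pairs p univ A fun a _ b _ ab => by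
    obtain ⟨u, rfl⟩ := hp a
    obtain ⟨v, rfl⟩ := hp b
    exact ⟨u, v, rfl, rfl, hin u v ab⟩
  rw [card_univ] at b
  have b2 := (ch (Fintype.card P)).2
  rcases (show Fintype.card P ≤ 1 ∨ Fintype.card P = 2 ∨ Fintype.card P = 3 ∨
    4 ≤ Fintype.card P by omega) with c | c | c | c
  · omega
  · obtain ⟨a, b, ab⟩ := Fintype.exists_pair_of_one_lt_card (α := P) (by omega)
    obtain ⟨u, rfl⟩ := hp a
    obtain ⟨v, rfl⟩ := hp b
    by_contra hn
    exact ab (ConnectedComponent.sound (avoid h A (by omega) u v))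
  · have n3 : Fintype.card V ≠ 3 := fun e => by
      have : G = ⊤ := by
        ext u v; exact ⟨fun a => a.ne, fun a => hc u v a (hall u v)⟩
      subst this
      rw [cycleGraph_three_eq_top] at h3
      exact h3.false (Iso.completeGraph (Fintype.equivFinOfCardEq e))
    have n4 := Fintype.card_le_of_surjective p hp
    obtain ⟨x, x', xx, ex⟩ := Fintype.exists_ne_map_eq_of_card_lt p (by omega)
    have : 1 < #((univ : Finset P).erase (p x)) := by
      rw [card_erase_of_mem (mem_univ _), card_univ]; omega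
    obtain ⟨a, ha, b, hb, ab⟩ := one_lt_card.mp this
    obtain ⟨u, rfl⟩ := hp a
    obtain ⟨v, rfl⟩ := hp b
    have ha := (mem_erase.mp ha).1
    have hb := (mem_erase.mp hb).1
    have uv : u ≠ v := fun e => ab (by rw [e])
    have ux : u ≠ x := fun e => ha (by rw [e])
    have vx : v ≠ x := fun e => hb (by rw [e])
    have ux' : u ≠ x' := fun e => ha (by rw [e, ex])
    have vx' : v ≠ x' := fun e => hb (by rw [e, ex])
    have : #({s(u, x), s(u, x'), s(v, x), s(v, x')} : Finset (Sym2 V)) ≤ #A := by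
      refine card_le_card ?_
      intro e he
      simp only [mem_insert, mem_singleton] at he
      rcases he with rfl | rfl | rfl | rfl
      exacts [hin _ _ ha, hin _ _ (ex ▸ ha), hin _ _ hb, hin _ _ (ex ▸ hb)]
    rw [card_insert_of_notMem (by simp [*]), card_insert_of_notMem (by simp [*]),
      card_insert_of_notMem (by simp [*]), card_singleton] at this
    omega
  · have := b2 c
    omega

end Pool.Agent.Results.MP_efdca5_co.Decay
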